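import Pool.Agent.QT.ZR
import Pool.Agent.QT.Q13

/-!
The 2-part of the strong Birch and Swinnerton-Dyer conjecture for a positive proportion of all elliptic curves
over `K = ℚ(i)` with complex multiplication by `ℤ[i]`.
-/

set_option autoImplicit false

open NumberField IsDedekindDomain
open scoped Classical

namespace Pool.Agent.Results.MP_9ab903_nt.GaussianCM

/-- The curve `y² = x³ - D x` over `ℚ(i)`. -/
noncomputable def curve (D : GaussianInt) : WeierstrassCurve PI.KI :=
  ⟨0, 0, 0, -((D.re : PI.KI) + (D.im : PI.KI) * ⟨Complex.I, PI.I_mem⟩), 0⟩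

/-- `D` is nonzero and not divisible by the fourth power of a prime. -/
def FourthPowerFree (D : GaussianInt) : Prop := D ≠ 0 ∧ ∀ q : GaussianInt, Prime q → ¬ q ^ 4 ∣ D

/-- `D = i ^ s (1 + i) ^ t ∏_{π ∈ S} (π*) ^ a_π`, where `s, t ≤ 3`, `S` is a finite set of primes
`π ≡ 1 mod (1 + i)³` of `ℤ[i]`, `π* = (-1) ^ ((N π - 1) / 4) π` and `a_π = 1, 2, 3`, and the condition
`QT.Good` holds. -/
def IsGood (D : GaussianInt) : Prop :=
  ∃ (s t : ℕ) (S : Finset GaussianInt) (a : GaussianInt → ℕ), QT.Good s t S a ∧ D = QT.Dd s t S a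

theorem curve_eq (D : GaussianInt) : curve D = QT.W ((PI.eG D : 𝓞 PI.KI) : PI.KI) := by
  rw [QT.zr_coe]
  rfl

theorem density : ∃ X₀ : ℕ, ∀ X : ℕ, X₀ ≤ X →
      317 * {D : GaussianInt | FourthPowerFree D ∧ D.norm ≤ X}.ncard ≤
        1000 * {D : GaussianInt | FourthPowerFree D ∧ D.norm ≤ X ∧ IsGood D}.ncard := by
  obtain ⟨X₀, h⟩ := QT.density_all
  refine ⟨X₀, fun X hX => ?_⟩
  have e1 : {D : GaussianInt | FourthPowerFree D ∧ D.norm ≤ X} = QT.quarA X := by
    ext D
    exact and_assoc
  have e2 : {D : GaussianInt | FourthPowerFree D ∧ D.norm ≤ X ∧ IsGood D} = QT.quarB X := by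
    ext D
    exact ⟨fun h => ⟨⟨h.1.1, h.1.2, h.2.1⟩, h.2.2⟩, fun h => ⟨⟨h.1.1, h.1.2.1⟩, h.1.2.2, h.2⟩⟩
  rw [e1, e2]
  exact h X hX

theorem classes (E : WeierstrassCurve PI.KI) [E.IsElliptic] (hj : E.j = 1728) :
    ∃! D : GaussianInt, FourthPowerFree D ∧
      ∃ C : WeierstrassCurve.VariableChange PI.KI, E = C • curve D := by
  have := QT.exists_unique_D E hj
  simp only [← curve_eq] at this
  exact this

/-- Let `D = i ^ s (1 + i) ^ t ∏_{π ∈ S} (π*) ^ a_π` be a nonzero element of `ℤ[i]` which is not divisible by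
the fourth power of a prime, where `0 ≤ s, t ≤ 3`, `S` is a finite set of primes `π ≡ 1 mod (1 + i)³`,
`π* = (-1) ^ ((N π - 1) / 4) π` and `a_π = 1, 2, 3` (every such element is of this form), and let
`E_D : y² = x³ - D x` over `K = ℚ(i)`. These are all elliptic curves over `K` with `j = 1728`, i.e. with
complex multiplication by `ℤ[i]`: each of them is isomorphic to `E_D` for exactly one such `D`.
Let `[x / π] ∈ 𝔽₂` be `0` if `x` is a square modulo `π` and `1` otherwise. Let `M` be the matrix over `𝔽₂`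
indexed by `S` with the entries `a_π' [π' / π]` for `π ≠ π'` and
`s [i / π] + t [1 + i / π] + ∑_{π' ≠ π} a_π' [π' / π]` on the diagonal, `β = ∑ a_π [i / π]` and
`γ = ∑ a_π [1 + i / π]`. The element `D` is good if

* `M` is invertible, and `t = 0` and `s` is odd, or `t = 3`, or `t = 2` and `(s, β) = (1, 0), (3, 1)`; or
* the kernel of `M` is contained in `{0, (1, …, 1)}`, and `t = 0`, `s` is even and `β = 1`, or `t = 2`, `s = 0`
  and `β + γ = 1`, or `t = 2`, `s = 2` and `γ = 1`; or
* `t = 1` and the bordered matrix `[[c, (a_π [i / π])ᵀ], [([i / π]), M]]` is invertible, where `c = β + 1` for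
  `s = 0, 3` and `c = β` for `s = 1, 2`.

If `D` is good, then

* the `L`-series of `E_D` over `K` extends to an entire function `L`, whose order of vanishing at
  `s = 1` and the rank of `E_D(K)` are both equal to `0` (and `E_D(K)` is finite);
* the Tate–Shafarevich group of `E_D` over `K` has no nonzero element of `2`-power order;
* the quotient `L(1) √|Δ(K)| |E_D(K)_tors|² / (Ω(E_D) ∏ c_v)` (which the conjecture asserts to be the
  order of the Tate–Shafarevich group) is a nonzero rational number with `2`-adic valuation `0`.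

For all large `X` at least `31.7 %` of the nonzero fourth-power-free `D` of norm at most `X` are good. -/
theorem result :
    (∀ (E : WeierstrassCurve PI.KI) [E.IsElliptic], E.j = 1728 →
      ∃! D : GaussianInt, FourthPowerFree D ∧
        ∃ C : WeierstrassCurve.VariableChange PI.KI, E = C • curve D) ∧
    (∀ D : GaussianInt, IsGood D → SBSD2.TwoPartRankZero (curve D)) ∧
    ∃ X₀ : ℕ, ∀ X : ℕ, X₀ ≤ X →
      317 * {D : GaussianInt | FourthPowerFree D ∧ D.norm ≤ X}.ncard ≤
        1000 * {D : GaussianInt | FourthPowerFree D ∧ D.norm ≤ X ∧ IsGood D}.ncard := by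
  refine ⟨fun E _ hj => classes E hj, ?_, density⟩
  intro D hD
  rw [curve_eq]
  exact QT.final_ex D hD

end Pool.Agent.Results.MP_9ab903_nt.GaussianCM
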