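import Pool.Agent.MP_9ab903_nt.TH.Z
import Pool.Agent.MP_9ab903_nt.TH.G3

/-!
The 3-part of the strong Birch and Swinnerton-Dyer conjecture for the elliptic curve
`E : y² + ω² y = x³ + (2 + ω) x² + (1 + ω) x` over every extension `F` of `K = ℚ(ω)` which is contained
in a Galois extension `M` of `K` of `3`-power degree such that `ω - 4` is not a square modulo the
primes of `K` which ramify in `M`. The Galois groups of these fields `M` over `K` have unbounded
nilpotency class.
-/

set_option autoImplicit false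

open NumberField IsDedekindDomain
open scoped Classical

namespace Pool.Agent.Results.MP_9ab903_nt.ThreePowerGaloisFields

/-- `M` is a Galois extension of `K = ℚ(ω)` whose degree is a power of `3`, and `ω - 4` is not a
square modulo any of the prime ideals of `K` which ramify in `M`. -/
def IsTop (M : IntermediateField ℚ ℂ) [NumberField M] (hM : CM27.w ∈ M) : Prop :=
  letI := CF.algK M hM
  IsGalois CF.KK M ∧ (∃ n : ℕ, Module.finrank CF.KK M = 3 ^ n) ∧
    ∀ (v : HeightOneSpectrum (𝓞 CF.KK)) (P : HeightOneSpectrum (𝓞 M)),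
      P.asIdeal.LiesOver v.asIdeal → P.asIdeal.ramificationIdx (𝓞 CF.KK) ≠ 1 →
      ∀ x a : 𝓞 CF.KK, ((a : CF.KK) : ℂ) = CM27.w - 4 → x ^ 2 - a ∉ v.asIdeal

/-- The elliptic curve `y² + ω² y = x³ + (2 + ω) x² + (1 + ω) x`. -/
noncomputable def curve (F : IntermediateField ℚ ℂ) (hF : CM27.w ∈ F) : WeierstrassCurve F :=
  ⟨0, 2 + ⟨CM27.w, hF⟩, ⟨CM27.w, hF⟩ ^ 2, 1 + ⟨CM27.w, hF⟩, 0⟩

theorem isTop_iff {M : IntermediateField ℚ ℂ} [NumberField M] {hM : CM27.w ∈ M} :
    IsTop M hM ↔ THG.TM M hM := by
  have hdK : ((TH.dK : CF.KK) : ℂ) = CM27.w - 4 := by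
    rw [TH.dK, CF.eF_apply, CM27.emb_apply, TH.dd]
    push_cast
    ring
  have hun : ∀ a : 𝓞 CF.KK, ((a : CF.KK) : ℂ) = CM27.w - 4 → a = TH.dK := by
    intro a ha
    apply RingOfIntegers.ext
    apply Subtype.ext
    rw [ha, hdK]
  constructor
  · rintro ⟨h1, h2, h3⟩
    refine ⟨h1, h2, ?_⟩
    rintro v P hP ⟨x, hx⟩
    by_contra hne
    exact h3 v P hP hne x TH.dK hdK hx
  · rintro ⟨h1, h2, h3⟩
    refine ⟨h1, h2, ?_⟩
    intro v P hP hne x a ha hx
    rw [hun a ha] at hx
    exact hne (h3 v P hP ⟨x, hx⟩)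

/-- Let `ω = (-1 + √-3)/2` and `K = ℚ(ω)`, and let `M ⊂ ℂ` be a Galois extension of `K` of `3`-power
degree such that `ω - 4` is not a square modulo the primes of `K` which ramify in `M`. Let `F` be any
field with `K ⊆ F ⊆ M`, and let `E` be the elliptic curve `y² + ω² y = x³ + (2 + ω) x² + (1 + ω) x` (it
has complex multiplication by `ℤ[ω]`, discriminant `ω (3 + ω)²`, and it is not isomorphic to a curve
over `ℚ`). Then

* the `L`-series of `E` over `F` extends to an entire function `L`, whose order of vanishing at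
  `s = 1` and the rank of `E(F)` are both equal to `0` (and `E(F)` is finite, so the regulator is 1);
* the Tate–Shafarevich group of `E` over `F` has no nonzero element of `3`-power order;
* the quotient `L(1) √|Δ(F)| |E(F)_tors|² / (Ω(E) ∏ c_v)` (which the conjecture asserts to be the
  order of the Tate–Shafarevich group) is a nonzero rational number with `3`-adic valuation `0`.

For every `c` there are infinitely many such fields `M` whose Galois group over `K` has nilpotency
class greater than `c`. -/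
theorem result :
    (∀ (M : IntermediateField ℚ ℂ) [NumberField M] (hM : CM27.w ∈ M), IsTop M hM →
      ∀ (F : IntermediateField ℚ ℂ) [NumberField F] (hF : CM27.w ∈ F), F ≤ M →
        SBSD3.ThreePartRankZero (curve F hF)) ∧
    ∀ c : ℕ, {M : IntermediateField ℚ ℂ | ∃ (_ : NumberField M) (hM : CM27.w ∈ M),
      letI := CF.algK M hM
      IsTop M hM ∧ c < Group.nilpotencyClass (M ≃ₐ[CF.KK] M)}.Infinite := by
  refine ⟨?_, fun c => (THG.infinite_TM c).mono ?_⟩
  · intro M _ hM h F _ hF hFM
    exact TH.final3 F hF ((isTop_iff.1 h).tt hF hFM)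
  · rintro M ⟨hN, hM, h, hc⟩
    exact ⟨hN, hM, isTop_iff.2 h, hc⟩

end Pool.Agent.Results.MP_9ab903_nt.ThreePowerGaloisFields
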