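import Pool.Agent.TSF.Main
import Pool.Agent.T1B.Dominated

/-!
# MP_17a657_ag (Tate conjecture for divisors): pull-backs of rational elliptic surfaces with a
starred fibre

Let `E : y^2 = x^3 + a₁(t) x^2 + a₂(t) x + a₃(t)` with `deg aᵢ ≤ i` and nonzero discriminant, and
let `t = φ(z)` with `φ = z^N` or `φ` an additive polynomial. Then the function field
`K = k(x,y,z)` of the pulled back elliptic surface embeds over `k` into the compositum of two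
function fields of curves `K₁`, `K₂`, and the Tate conjecture for divisors, in the form
`T_ℓ Br(X_{k^s})^{G_k} = 0`, holds for `K` if it holds for the product of these curves.

Idea: the line through `(x,t)` tangent to the plane cubic `y = 0` meets it in
`κ (t - τ)^2 (t - l)`; the curve of these lines is `K₁` (with `w^N = l`, `δ^2 = -κ l`) and
`z = u w`, `y = ± δ v (t - τ)` with `v^2 = 1 - u^N`.
-/

namespace Pool.Agent.Results.MP_17a657_ag.StarFibre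

open Polynomial Pool.Agent.TSF Pool.Agent.T1B

universe u

theorem result (k K : Type u) [Field k] [Field K] [Algebra k K] (hk : (2 : k) ≠ 0)
    (a₁ a₂ a₃ : k[X]) (h₁ : a₁.natDegree ≤ 1) (h₂ : a₂.natDegree ≤ 2) (h₃ : a₃.natDegree ≤ 3)
    (hΔ : a₁ ^ 2 * a₂ ^ 2 - 4 * a₂ ^ 3 - 4 * a₁ ^ 3 * a₃ - 27 * a₃ ^ 2 + 18 * a₁ * a₂ * a₃ ≠ 0)
    (φ : k[X]) (hφ : (∃ N, 0 < N ∧ φ = X ^ N) ∨ (AdditivePoly φ ∧ φ ≠ 0))
    (x y z : K) (hz : Transcendental k z)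
    (hxy : y ^ 2 = x ^ 3 + aeval (aeval z φ) a₁ * x ^ 2 + aeval (aeval z φ) a₂ * x
      + aeval (aeval z φ) a₃)
    (hK : IntermediateField.adjoin k {x, y, z} = ⊤) (hdim : Algebra.trdeg k K = 2) :
    ∃ (Ω : Type u) (_ : Field Ω) (_ : Algebra k Ω) (ι : K →ₐ[k] Ω) (K₁ K₂ : IntermediateField k Ω),
      K₁.FG ∧ K₂.FG ∧ Algebra.trdeg k K₁ ≤ 1 ∧ Algebra.trdeg k K₂ ≤ 1 ∧
      ι.fieldRange ≤ K₁ ⊔ K₂ ∧
      ∀ ℓ : ℕ, ℓ.Prime → (ℓ : k) ≠ 0 → T1 k (K₁ ⊔ K₂ : IntermediateField k Ω) ℓ → T1 k K ℓ := by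
  obtain ⟨Ω, i1, i2, ι, K₁, K₂, h4, h5, h6, h7, h8⟩ :=
    dominated k K hk a₁ a₂ a₃ h₁ h₂ h₃ hΔ φ hφ x y z hz hxy hK
  exact ⟨Ω, i1, i2, ι, K₁, K₂, h4, h5, h6, h7, h8, fun ℓ hℓ _ hT =>
    T1.of_embedding hℓ ι K₁ K₂ h4 h5 h6 h7 h8 hdim hT⟩

end Pool.Agent.Results.MP_17a657_ag.StarFibre
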